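import Mathlib
import Pool.Agent.Run7.h940.PACH.Iface

/-!
# PACH, piece GM2: the piecewise continuous map (`S_GM1 → S_GMAP`)
-/

set_option autoImplicit false

namespace Run7.h463.PACH

open Finset Run7.h940.PACH

theorem phi_nonneg {d : ℕ} (z : Fin d → ℤ) (p : Fin d → ℝ) : 0 ≤ phi z p := by
  unfold phi
  apply mul_nonneg
  · exact Finset.prod_nonneg fun i _ => le_max_left _ _
  · exact Finset.prod_nonneg fun i _ => Finset.prod_nonneg fun j _ => le_max_left _ _

theorem phi_cont {d : ℕ} (z : Fin d → ℤ) : Continuous (phi z) := by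
  unfold phi
  apply Continuous.mul
  · apply continuous_finsetProd
    intro i _
    fun_prop
  · apply continuous_finsetProd
    intro i _
    apply continuous_finsetProd
    intro j _
    fun_prop

theorem phi_dist {d : ℕ} (z : Fin d → ℤ) (p : Fin d → ℝ) (h : phi z p ≠ 0) (i : Fin d) :
    |p i - z i| < 1 := by
  by_contra hc
  apply h
  unfold phi
  have h0 : (∏ i, max 0 (1 - |p i - z i|)) = 0 := by
    apply Finset.prod_eq_zero (Finset.mem_univ i)
    apply max_eq_left
    linarith [not_lt.mp hc]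
  rw [h0, zero_mul]

theorem finite_near {d : ℕ} (p : Fin d → ℝ) :
    {z : Fin d → ℤ | ∀ i, |p i - z i| < 2}.Finite := by
  have hf : (Set.pi Set.univ fun i : Fin d => Set.Icc (⌊p i⌋ - 2) (⌊p i⌋ + 3)).Finite :=
    Set.Finite.pi fun i => Set.finite_Icc _ _
  apply hf.subset
  intro z hz i _
  have h1 := abs_lt.mp (hz i)
  have h2 := Int.floor_le (p i)
  have h3 := Int.lt_floor_add_one (p i)
  constructor
  · have : ((⌊p i⌋ - 2 : ℤ) : ℝ) < z i + 1 := by push_cast; linarith [h1.1, h1.2]
    have h4 : (⌊p i⌋ - 2 : ℤ) < z i + 1 := by exact_mod_cast this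
    omega
  · have : ((z i : ℤ) : ℝ) < ((⌊p i⌋ + 3 : ℤ) : ℝ) := by push_cast; linarith [h1.1, h1.2]
    have h4 : z i < ⌊p i⌋ + 3 := by exact_mod_cast this
    omega

theorem phi_locfin {d : ℕ} : LocallyFinite fun z : Fin d → ℤ => Function.support (phi z) := by
  intro p
  refine ⟨Metric.ball p 1, Metric.ball_mem_nhds p one_pos, ?_⟩
  apply (finite_near p).subset
  rintro z ⟨q, hq, hqp⟩ i
  have h1 := phi_dist z q hq i
  have h2 : dist q p < 1 := hqp
  have h3 : dist (q i) (p i) < 1 := lt_of_le_of_lt (dist_le_pi_dist q p i) h2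
  rw [Real.dist_eq] at h3
  have h4 : |p i - z i| ≤ |q i - z i| + |q i - p i| := by
    have : p i - z i = (q i - z i) - (q i - p i) := by ring
    rw [this]
    exact abs_sub _ _
  linarith

/-- Piece GM2. -/
theorem t_GMAP (h : S_GM1) : S_GMAP := by
  intro d E _ _ X
  have hc1 : Continuous fun p : Fin d → ℝ => ∑ᶠ z : Fin d → ℤ, phi z p :=
    continuous_finsum phi_cont phi_locfin
  have hc2 : Continuous fun p : Fin d → ℝ => ∑ᶠ z : Fin d → ℤ, phi z p • X z := by
    apply continuous_finsum (f := fun (z : Fin d → ℤ) (p : Fin d → ℝ) => phi z p • X z)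
    · intro z
      exact (phi_cont z).smul continuous_const
    · apply phi_locfin.subset
      intro z p hp hp0
      apply hp
      show phi z p • X z = 0
      rw [show phi z p = 0 from hp0, zero_smul]
  have hfin : ∀ p : Fin d → ℝ, {z : Fin d → ℤ | phi z p ≠ 0}.Finite := by
    intro p
    apply (finite_near p).subset
    intro z hz i
    have := phi_dist z p hz i
    linarith
  have hs1 : ∀ p : Fin d → ℝ, ∑ᶠ z : Fin d → ℤ, phi z p = ∑ z ∈ (hfin p).toFinset, phi z p := by
    intro p
    apply finsum_eq_sum_of_support_subset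
    intro z hz
    simpa using hz
  have hs2 : ∀ p : Fin d → ℝ, ∑ᶠ z : Fin d → ℤ, phi z p • X z =
      ∑ z ∈ (hfin p).toFinset, phi z p • X z := by
    intro p
    apply finsum_eq_sum_of_support_subset
    intro z hz
    have hz' : phi z p ≠ 0 := by
      intro h0
      apply hz
      show phi z p • X z = 0
      rw [h0, zero_smul]
    simpa using hz'
  have hpos : ∀ p : Fin d → ℝ, 0 < ∑ z ∈ (hfin p).toFinset, phi z p := by
    intro p
    obtain ⟨z, hz⟩ := (h d p).1
    apply Finset.sum_pos' (fun i _ => phi_nonneg i p)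
    exact ⟨z, by simpa using hz.ne', hz⟩
  refine ⟨fun p => (∑ᶠ z : Fin d → ℤ, phi z p)⁻¹ • ∑ᶠ z : Fin d → ℤ, phi z p • X z, ?_, ?_⟩
  · apply Continuous.smul _ hc2
    apply hc1.inv₀
    intro p
    rw [hs1]
    exact (hpos p).ne'
  · intro p
    obtain ⟨w, hw, hw0, hall⟩ := (h d p).2
    refine ⟨w, hw, hw0, ?_⟩
    show (∑ᶠ z : Fin d → ℤ, phi z p)⁻¹ • ∑ᶠ z : Fin d → ℤ, phi z p • X z ∈ _
    rw [hs1, hs2]
    apply Finset.centerMass_mem_convexHull (hfin p).toFinset (w := fun z => phi z p) (z := X)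
    · intro z _
      exact phi_nonneg z p
    · exact hpos p
    · intro z hz
      have hz' : phi z p ≠ 0 := by simpa using hz
      obtain ⟨j, hj⟩ := hall z (lt_of_le_of_ne (phi_nonneg z p) hz'.symm)
      exact ⟨j, by rw [hj]⟩

end Run7.h463.PACH
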